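import Mathlib

set_option autoImplicit false

namespace Pool.Agent.Results.MP_482303_co.Wreath

open Finset

/-- g maps the block set onto itself. -/
def IsAut {X : Type} [DecidableEq X] (Bs : Set (Finset X)) (g : Equiv.Perm X) : Prop :=
  (fun B : Finset X => B.image g) '' Bs = Bs

/-- Bs is the block set of a 1-design with block size k and replication number r. -/
def IsDesign {V : Type} (Bs : Set (Finset V)) (k r : ℕ) : Prop :=
  (∀ B ∈ Bs, B.card = k) ∧ ∀ p : V, {B ∈ Bs | p ∈ B}.ncard = r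

/-- The blocks of the blow-up on V × Δ. -/
def blowup {V : Type} (Δ : Type) [DecidableEq V] [DecidableEq Δ] (Bs : Set (Finset V)) :
    Set (Finset (V × Δ)) :=
  {B | ∃ i : Δ, (∃ B₀ ∈ Bs, B.filter (fun x => x.2 = i) = B₀.image (fun p => (p, i))) ∧
    ∀ j, j ≠ i → (B.filter (fun x => x.2 = j)).card = 1}

theorem isAut_iff {X : Type} [DecidableEq X] [Finite X] (Bs : Set (Finset X)) (g : Equiv.Perm X) :
    IsAut Bs g ↔ ∀ B ∈ Bs, B.image g ∈ Bs := by
  constructor
  · intro h B hB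
    rw [← h]
    exact ⟨B, hB, rfl⟩
  · intro h
    have : Fintype X := Fintype.ofFinite X
    have hinj : Function.Injective (fun B : Finset X => B.image g) := image_injective g.injective
    apply Set.eq_of_subset_of_ncard_le
    · rintro _ ⟨B, hB, rfl⟩
      exact h B hB
    · rw [Set.ncard_image_of_injective _ hinj]
    · exact Set.toFinite _

variable {V Δ : Type} [DecidableEq V] [DecidableEq Δ]

theorem mem_blowup [Nonempty V] (Bs : Set (Finset V)) (B : Finset (V × Δ)) :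
    B ∈ blowup Δ Bs ↔ ∃ (i : Δ) (B₀ : Finset V) (f : Δ → V), B₀ ∈ Bs ∧
      ∀ p j, (p, j) ∈ B ↔ if j = i then p ∈ B₀ else p = f j := by
  constructor
  · rintro ⟨i, ⟨B₀, hB₀, h1⟩, h2⟩
    have : ∀ j, ∃ q : V, j ≠ i → ∀ p, (p, j) ∈ B ↔ p = q := by
      intro j
      by_cases hj : j = i
      · exact ⟨Classical.arbitrary V, fun h => absurd hj h⟩
      · obtain ⟨⟨q, j'⟩, hq⟩ := card_eq_one.1 (h2 j hj)
        have h3 : (q, j') ∈ B.filter (fun x => x.2 = j) := hq ▸ mem_singleton_self _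
        have h4 : j' = j := (mem_filter.1 h3).2
        subst h4
        refine ⟨q, fun _ p => ?_⟩
        have h5 := Finset.ext_iff.1 hq (p, j')
        simpa using h5
    choose f hf using this
    refine ⟨i, B₀, f, hB₀, fun p j => ?_⟩
    split_ifs with hj
    · subst hj
      have h5 := Finset.ext_iff.1 h1 (p, j)
      simpa using h5
    · exact hf j hj p
  · rintro ⟨i, B₀, f, hB₀, h⟩
    refine ⟨i, ⟨B₀, hB₀, ?_⟩, fun j hj => card_eq_one.2 ⟨(f j, j), ?_⟩⟩
    · ext ⟨p, j⟩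
      simp only [mem_filter, h, mem_image, Prod.mk.injEq]
      constructor
      · rintro ⟨h1, rfl⟩
        exact ⟨p, by simpa using h1, rfl, rfl⟩
      · rintro ⟨q, hq, rfl, rfl⟩
        simpa using hq
    · ext ⟨p, j'⟩
      simp only [mem_filter, h, mem_singleton, Prod.mk.injEq]
      constructor
      · rintro ⟨h1, rfl⟩
        exact ⟨by simpa [hj] using h1, rfl⟩
      · rintro ⟨rfl, rfl⟩
        simp [hj]

theorem cnt_blowup {Bs : Set (Finset V)} {k : ℕ} (hB : ∀ B ∈ Bs, B.card = k) {B : Finset (V × Δ)}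
    (h : B ∈ blowup Δ Bs) : ∃ i, (B.filter (fun x => x.2 = i)).card = k ∧
      ∀ j, j ≠ i → (B.filter (fun x => x.2 = j)).card = 1 := by
  obtain ⟨i, ⟨B₀, hB₀, h1⟩, h2⟩ := h
  refine ⟨i, ?_, h2⟩
  rw [h1, card_image_of_injective _ (fun a b h => (Prod.mk.inj h).1), hB B₀ hB₀]

theorem cnt_insert (C : Finset (V × Δ)) (x : V × Δ) (hx : x ∉ C) (j : Δ) :
    ((insert x C).filter (fun y => y.2 = j)).card =
      (C.filter (fun y => y.2 = j)).card + if x.2 = j then 1 else 0 := by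
  rw [filter_insert]
  split_ifs
  · rw [card_insert_of_notMem (fun h => hx (mem_filter.1 h).1)]
  · rfl

theorem key {Bs : Set (Finset V)} {k : ℕ} (hk : 2 ≤ k) (hB : ∀ B ∈ Bs, B.card = k)
    (C : Finset (V × Δ)) (x y : V × Δ) (hx : x ∉ C) (hy : y ∉ C) (hxy : x.2 ≠ y.2)
    (h1 : insert x C ∈ blowup Δ Bs) (h2 : insert y C ∈ blowup Δ Bs) :
    k = 2 ∧ ∀ j, (C.filter (fun y => y.2 = j)).card = 1 := by
  obtain ⟨i1, a1, b1⟩ := cnt_blowup hB h1
  obtain ⟨i2, a2, b2⟩ := cnt_blowup hB h2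
  simp only [cnt_insert C x hx] at a1 b1
  simp only [cnt_insert C y hy] at a2 b2
  have e1 : i1 = x.2 := by
    by_contra hne
    have c1 := b1 x.2 (Ne.symm hne)
    rw [if_pos rfl] at c1
    by_cases h3 : x.2 = i2
    · rw [← h3, if_neg (Ne.symm hxy)] at a2
      omega
    · have c2 := b2 x.2 h3
      rw [if_neg (Ne.symm hxy)] at c2
      omega
  have e2 : i2 = y.2 := by
    by_contra hne
    have c1 := b2 y.2 (Ne.symm hne)
    rw [if_pos rfl] at c1
    have c2 := b1 y.2 (e1 ▸ Ne.symm hxy)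
    rw [if_neg hxy] at c2
    omega
  subst e1 e2
  have hall : ∀ j, (C.filter (fun y => y.2 = j)).card = 1 := by
    intro j
    by_cases h3 : j = x.2
    · have c2 := b2 j (h3 ▸ hxy)
      rw [if_neg (h3 ▸ Ne.symm hxy)] at c2
      exact c2
    · have c2 := b1 j h3
      rw [if_neg (Ne.symm h3)] at c2
      exact c2
  rw [if_pos rfl, hall] at a1
  exact ⟨a1.symm, hall⟩

theorem layer [Fintype V] [Fintype Δ] {Bs : Set (Finset V)} {k : ℕ} (hk : 2 ≤ k)
    (hB : ∀ B ∈ Bs, B.card = k) (B₀ : Finset V) (hB₀ : B₀ ∈ Bs)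
    (he : 2 ≤ Fintype.card Δ) (hek : 3 ≤ Fintype.card Δ ∨ 3 ≤ k) (g : Equiv.Perm (V × Δ))
    (hg : ∀ B ∈ blowup Δ Bs, B.image g ∈ blowup Δ Bs) (p p' : V) (i : Δ) :
    (g (p, i)).2 = (g (p', i)).2 := by
  by_contra hne
  have : Nonempty V := ⟨p⟩
  let C : Δ → (Δ → V) → Finset (V × Δ) := fun l f =>
    univ.filter fun x => x.2 ≠ i ∧ if x.2 = l then x.1 ∈ B₀ else x.1 = f x.2
  have hC : ∀ l f, l ≠ i → k = 2 ∧ ∀ j, (((C l f).image g).filter (fun y => y.2 = j)).card = 1 := by
    intro l f hl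
    have hin : ∀ q, insert (q, i) (C l f) ∈ blowup Δ Bs := by
      intro q
      refine (mem_blowup Bs _).2 ⟨l, B₀, Function.update f i q, hB₀, fun u j => ?_⟩
      by_cases hj : j = i
      · subst hj
        simp [C, Ne.symm hl]
      · simp [C, hj]
    have hno : ∀ q, g (q, i) ∉ (C l f).image g := by
      intro q h
      obtain ⟨w, hw, h2⟩ := mem_image.1 h
      rw [g.injective h2] at hw
      simp [C] at hw
    refine key hk hB _ _ _ (hno p) (hno p') hne ?_ ?_
    · rw [← image_insert]; exact hg _ (hin p)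
    · rw [← image_insert]; exact hg _ (hin p')
  obtain ⟨l, hl⟩ := Fintype.exists_ne_of_one_lt_card (by omega) i
  obtain ⟨a, ha, a', ha', haa⟩ := one_lt_card.1 (by rw [hB B₀ hB₀]; omega : 1 < B₀.card)
  have hk2 : k = 2 := (hC l (fun _ => a) hl).1
  have he3 : 3 ≤ Fintype.card Δ := by omega
  obtain ⟨m, hm⟩ : ∃ m, m ∉ ({i, l} : Finset Δ) := by
    by_contra hcon
    push Not at hcon
    have h1 : (univ : Finset Δ) ⊆ {i, l} := fun x _ => hcon x
    have h2 := card_le_card h1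
    have h3 := card_le_two (a := i) (b := l)
    rw [card_univ] at h2
    omega
  simp only [mem_insert, mem_singleton, not_or] at hm
  have inj : ∀ l f, l ≠ i → ∀ u ∈ C l f, ∀ v ∈ C l f, (g u).2 = (g v).2 → u = v := by
    intro l f hl u hu v hv huv
    apply g.injective
    exact card_le_one.1 ((hC l f hl).2 (g v).2).le _ (mem_filter.2 ⟨mem_image_of_mem _ hu, huv⟩) _
      (mem_filter.2 ⟨mem_image_of_mem _ hv, rfl⟩)
  obtain ⟨z, hz⟩ := card_pos.1 (((hC l (fun _ => a) hl).2 (g (a', m)).2).symm ▸ one_pos)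
  obtain ⟨hz1, hz2⟩ := mem_filter.1 hz
  obtain ⟨⟨w, n⟩, hw, rfl⟩ := mem_image.1 hz1
  by_cases hn : n = m
  · subst hn
    have hwa : w = a := by simpa [C, hm.1, hm.2] using hw
    subst hwa
    have := inj n (fun _ => w) hm.1 (w, n) (by simp [C, hm.1, ha]) (a', n) (by simp [C, hm.1, ha']) hz2
    exact haa (Prod.mk.inj this).1
  · have := inj l (Function.update (fun _ => a) m a') hl (w, n) (by simpa [C, hn] using hw) (a', m)
      (by simp [C, hm.1, hm.2]) hz2
    exact hn (Prod.mk.inj this).2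

theorem result (V Δ : Type) [Fintype V] [Fintype Δ] [DecidableEq V] [DecidableEq Δ]
    (Bs : Set (Finset V)) (k r : ℕ) (hk : 2 ≤ k) (hr : 1 ≤ r) (hD : IsDesign Bs k r)
    (he : 2 ≤ Fintype.card Δ) (hek : 3 ≤ Fintype.card Δ ∨ 3 ≤ k) (g : Equiv.Perm (V × Δ)) :
    IsAut (blowup Δ Bs) g ↔ ∃ (σ : Equiv.Perm Δ) (h : Δ → Equiv.Perm V),
      (∀ j, IsAut Bs (h j)) ∧ ∀ p j, g (p, j) = (h j p, σ j) := by
  rcases isEmpty_or_nonempty V with hV | hV
  · constructor
    · refine fun _ => ⟨1, fun _ => 1, fun j => ?_, fun p => isEmptyElim p⟩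
      rw [isAut_iff]
      intro B hB
      simpa using hB
    · intro _
      have : g = 1 := Equiv.ext fun x => isEmptyElim x.1
      rw [isAut_iff, this]
      intro B hB
      simpa using hB
  obtain ⟨p₀⟩ := id hV
  rw [isAut_iff]
  constructor
  · intro hg
    obtain ⟨B₀, hB₀, -⟩ : {B ∈ Bs | p₀ ∈ B}.Nonempty :=
      Set.nonempty_of_ncard_ne_zero (by rw [hD.2]; omega)
    have hl := layer hk hD.1 B₀ hB₀ he hek g hg
    have hσ : Function.Bijective fun j => (g (p₀, j)).2 := by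
      apply Finite.surjective_iff_bijective.1
      intro n
      obtain ⟨⟨p, j⟩, h⟩ := g.surjective (p₀, n)
      exact ⟨j, by simp only [hl p₀ p j, h]⟩
    have hh : ∀ j, Function.Bijective fun p => (g (p, j)).1 := by
      intro j
      apply Finite.injective_iff_bijective.1
      intro p q h
      exact (Prod.mk.inj (g.injective (Prod.ext h (hl p q j)))).1
    let σ := Equiv.ofBijective _ hσ
    let h := fun j => Equiv.ofBijective _ (hh j)
    have hgf : ∀ p j, g (p, j) = (h j p, σ j) := fun p j => Prod.ext rfl (hl p p₀ j)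
    refine ⟨σ, h, fun j => ?_, hgf⟩
    rw [isAut_iff]
    intro B₁ hB₁
    have h1 : (univ.filter fun x : V × Δ => if x.2 = j then x.1 ∈ B₁ else x.1 = p₀) ∈ blowup Δ Bs :=
      (mem_blowup Bs _).2 ⟨j, B₁, fun _ => p₀, hB₁, fun u n => by simp⟩
    obtain ⟨i, B₂, f, hB₂, h2⟩ := (mem_blowup Bs _).1 (hg _ h1)
    have h3 : ∀ p, p ∈ B₁ ↔ if σ j = i then h j p ∈ B₂ else h j p = f (σ j) := by
      intro p
      rw [← h2, ← hgf, g.injective.mem_finset_image]
      simp
    by_cases hi : σ j = i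
    · simp only [if_pos hi] at h3
      convert hB₂ using 1
      ext q
      obtain ⟨p, rfl⟩ := (h j).surjective q
      rw [(h j).injective.mem_finset_image, h3]
    · simp only [if_neg hi] at h3
      obtain ⟨a, ha, a', ha', haa⟩ := one_lt_card.1 (by rw [hD.1 B₁ hB₁]; omega : 1 < B₁.card)
      exact absurd ((h j).injective (((h3 a).1 ha).trans ((h3 a').1 ha').symm)) haa
  · rintro ⟨σ, h, hh, hgf⟩ B hB
    obtain ⟨i, B₀, f, hB₀, h2⟩ := (mem_blowup Bs _).1 hB
    refine (mem_blowup Bs _).2 ⟨σ i, B₀.image (h i), fun n => h (σ.symm n) (f (σ.symm n)),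
      (isAut_iff _ _).1 (hh i) _ hB₀, fun q n => ?_⟩
    obtain ⟨j, rfl⟩ := σ.surjective n
    obtain ⟨p, rfl⟩ := (h j).surjective q
    rw [← hgf, g.injective.mem_finset_image, h2]
    by_cases hj : j = i
    · subst hj
      simp
    · simp [hj]

end Pool.Agent.Results.MP_482303_co.Wreath
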